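import Pool.Agent.H6.EG.Red2
import Pool.Agent.H6.EG.BV
import Pool.Agent.H6.EG.Disp
import Pool.Agent.H6.EGF.Main
import Pool.Agent.H6.EGF.Uni

/-!
# Unit fraction representations of 1: every large one misses many pairs of consecutive integers

For every `ε > 0`, all but finitely many solutions (no condition on the gaps) with largest denominator `N` miss both `n` and `n + 1` for at least `N ^ (1 - ε)` integers `n` between their least and their largest denominator. So if the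
consecutive differences are at most `c`, then at least `N ^ (1 - ε) / c` of them are at least `3`, uniformly in `c`; and only finitely many solutions have maximal gap at most `2`.

The proof: a Maynard-Tao sieve for clusters of linear forms, with the Bombieri-Vinogradov theorem and a dispersion estimate beyond the level `1/2`, gives in every window `[N/e, N]` at least `N ^ (1 - ε)` integers `n` such that `n` and `n + 1` are
both divisible by primes larger than `N / K`; such integers are not denominators of a solution.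
-/

namespace Pool.Agent.Results.MP_0e3417_nt.MissingPairs

theorem result :
    (∀ ε : ℝ, 0 < ε →
      Set.Finite {S : Finset ℕ |
        2 ≤ S.card ∧ (∀ x ∈ S, 0 < x) ∧ (∑ x ∈ S, (1 : ℚ) / (x : ℚ)) = 1 ∧
        (((Finset.range (S.sup id)).filter (fun n => (∃ x ∈ S, x < n) ∧ n ∉ S ∧ n + 1 ∉ S)).card : ℝ) <
          ((S.sup id : ℕ) : ℝ) ^ (1 - ε)}) ∧
    (∀ ε : ℝ, 0 < ε →
      Set.Finite {S : Finset ℕ |
        2 ≤ S.card ∧ (∀ x ∈ S, 0 < x) ∧ (∑ x ∈ S, (1 : ℚ) / (x : ℚ)) = 1 ∧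
        ∃ c : ℕ, (∀ x ∈ S, ∀ y ∈ S, x < y → ∃ z ∈ S, x < z ∧ z ≤ x + c) ∧
        (c : ℝ) * ((S.filter (fun x => (∃ y ∈ S, x < y) ∧ ∀ y ∈ S, x < y → x + 3 ≤ y)).card : ℝ) <
          ((S.sup id : ℕ) : ℝ) ^ (1 - ε)}) ∧
    Set.Finite {S : Finset ℕ |
        2 ≤ S.card ∧ (∀ x ∈ S, 0 < x) ∧ (∑ x ∈ S, (1 : ℚ) / (x : ℚ)) = 1 ∧
        ∀ x ∈ S, ∀ y ∈ S, x < y → ∃ z ∈ S, x < z ∧ z ≤ x + 2} := by
  have h1 : ∀ ε : ℝ, 0 < ε →
      Set.Finite {S : Finset ℕ |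
        2 ≤ S.card ∧ (∀ x ∈ S, 0 < x) ∧ (∑ x ∈ S, (1 : ℚ) / (x : ℚ)) = 1 ∧
        (((Finset.range (S.sup id)).filter (fun n => (∃ x ∈ S, x < n) ∧ n ∉ S ∧ n + 1 ∉ S)).card : ℝ) <
          ((S.sup id : ℕ) : ℝ) ^ (1 - ε)} := fun ε hε => EG.red3 (EGF.last2 EG.bv EG.disp) hε
  have h2 : ∀ ε : ℝ, 0 < ε →
      Set.Finite {S : Finset ℕ |
        2 ≤ S.card ∧ (∀ x ∈ S, 0 < x) ∧ (∑ x ∈ S, (1 : ℚ) / (x : ℚ)) = 1 ∧
        ∃ c : ℕ, (∀ x ∈ S, ∀ y ∈ S, x < y → ∃ z ∈ S, x < z ∧ z ≤ x + c) ∧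
        (c : ℝ) * ((S.filter (fun x => (∃ y ∈ S, x < y) ∧ ∀ y ∈ S, x < y → x + 3 ≤ y)).card : ℝ) <
          ((S.sup id : ℕ) : ℝ) ^ (1 - ε)} := by
    intro ε hε
    refine (h1 ε hε).subset ?_
    rintro S ⟨hc, hp, hs, c, hg, hlt⟩
    refine ⟨hc, hp, hs, lt_of_le_of_lt ?_ hlt⟩
    have h3 := EG.pairs_le S c hg
    exact_mod_cast h3
  refine ⟨h1, h2, (h2 1 one_pos).subset ?_⟩
  rintro S ⟨hc, hp, hs, hg⟩
  refine ⟨hc, hp, hs, 2, hg, ?_⟩
  have h0 : S.filter (fun x => (∃ y ∈ S, x < y) ∧ ∀ y ∈ S, x < y → x + 3 ≤ y) = ∅ := by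
    refine Finset.filter_eq_empty_iff.2 fun x hx hh => ?_
    obtain ⟨⟨y, hy, hxy⟩, h3⟩ := hh
    obtain ⟨z, hz, hxz, hz2⟩ := hg x hx y hy hxy
    have := h3 z hz hxz
    omega
  rw [h0, Finset.card_empty, sub_self, Real.rpow_zero]
  norm_num

end Pool.Agent.Results.MP_0e3417_nt.MissingPairs
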